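import Mathlib

set_option autoImplicit false

/-!
# Every simple polygon can be carried to a regular polygon by vertex-centroid moves

The Euclidean plane is the complex plane `ℂ`.

Idea: with all vertices but `p` and `q` fixed, moves of `p` and `q` act linearly on the two vectors
from the average of the fixed vertices. A commutator of such moves is a transvection; hence a vertex
can be moved freely when the other ones are not collinear.
-/

namespace Pool.Agent.Results.MP_06c496_co.ReachRegular

open Function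

/-- The vertex centroid of a polygon: the average of its vertices. -/
noncomputable def centroid {n : ℕ} (v : Fin n → ℂ) : ℂ := (n : ℝ)⁻¹ • ∑ i, v i

/-- A vertex-centroid move: one vertex `v i`, different from the centroid, is replaced by a point of
the line through `v i` and the centroid; the other vertices stay fixed. -/
def Move {n : ℕ} (v w : Fin n → ℂ) : Prop :=
  ∃ i, v i ≠ centroid v ∧ w i ∈ affineSpan ℝ {v i, centroid v} ∧ ∀ j, j ≠ i → w j = v j

/-- `w` is obtained from `v` by a finite sequence of vertex-centroid moves. -/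
def Reach {n : ℕ} (v w : Fin n → ℂ) : Prop := Relation.ReflTransGen Move v w

/-- A simple closed polygon with vertices `v 0, …, v (n - 1)` and edges
`[v i, v (i + 1)]` (indices modulo `n`): the vertices are distinct, and a point common to two
different edges is the common endpoint of two consecutive edges. -/
def IsSimplePolygon {n : ℕ} [NeZero n] (v : Fin n → ℂ) : Prop :=
  Injective v ∧ ∀ i j : Fin n, i ≠ j → ∀ x ∈ segment ℝ (v i) (v (i + 1)),
    x ∈ segment ℝ (v j) (v (j + 1)) →
      (j = i + 1 ∧ x = v (i + 1)) ∨ (i = j + 1 ∧ x = v (j + 1))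

/-- A regular polygon of any size, position and orientation, with its vertices in cyclic order. -/
def IsRegular {n : ℕ} (v : Fin n → ℂ) : Prop :=
  ∃ (c : ℂ) (r θ ε : ℝ), 0 < r ∧ (ε = 1 ∨ ε = -1) ∧ ∀ j : Fin n,
    v j = c + r * Complex.exp ((θ + ε * (2 * Real.pi * (j : ℕ) / n) : ℝ) * Complex.I)

/-! ### Moves -/

theorem sum_update {n : ℕ} (v : Fin n → ℂ) (i : Fin n) (a : ℂ) :
    ∑ j, update v i a j = ∑ j, v j - v i + a := by
  classical
  rw [Finset.sum_update_of_mem (Finset.mem_univ i), ← Finset.add_sum_erase _ _ (Finset.mem_univ i)]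
  rw [← Finset.erase_eq]
  ring

theorem reach_homothety {n : ℕ} (v : Fin n → ℂ) (i : Fin n) (s : ℝ) :
    Reach v (update v i (centroid v + s • (v i - centroid v))) := by
  by_cases h : v i = centroid v
  · have : update v i (centroid v + s • (v i - centroid v)) = v := by
      rw [h, sub_self, smul_zero, add_zero, ← h, update_eq_self]
    rw [this]
    exact Relation.ReflTransGen.refl
  · refine Relation.ReflTransGen.single ⟨i, h, ?_, fun j hj => update_of_ne hj _ _⟩
    rw [update_self]
    have : centroid v + s • (v i - centroid v) = AffineMap.lineMap (centroid v) (v i) s := by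
      rw [AffineMap.lineMap_apply, vsub_eq_sub, vadd_eq_add, add_comm]
    rw [this, Set.pair_comm]
    exact AffineMap.lineMap_mem_affineSpan_pair s _ _

/-- The polygon `v` with `v p`, `v q` replaced by `c + x`, `c + y`. -/
def cfg {n : ℕ} (v : Fin n → ℂ) (p q : Fin n) (c x y : ℂ) : Fin n → ℂ :=
  update (update v p (c + x)) q (c + y)

theorem cfg_comm {n : ℕ} (v : Fin n → ℂ) {p q : Fin n} (h : p ≠ q) (c x y : ℂ) :
    cfg v p q c x y = cfg v q p c y x := by
  unfold cfg
  rw [update_comm h]

/-- The average of the vertices other than `p` and `q`. -/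
noncomputable def avg {n : ℕ} (v : Fin n → ℂ) (p q : Fin n) : ℂ :=
  ((n : ℝ) - 2)⁻¹ • (∑ j, v j - v p - v q)

theorem avg_comm {n : ℕ} (v : Fin n → ℂ) (p q : Fin n) : avg v p q = avg v q p := by
  unfold avg
  congr 1
  ring

theorem centroid_cfg {n : ℕ} (hn : 3 ≤ n) (v : Fin n → ℂ) {p q : Fin n} (h : p ≠ q) (x y : ℂ) :
    centroid (cfg v p q (avg v p q) x y) = avg v p q + (n : ℝ)⁻¹ • (x + y) := by
  unfold centroid cfg
  rw [sum_update, sum_update, update_of_ne h.symm]
  have hn2 : ((n : ℝ) - 2) ≠ 0 := by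
    have : (3 : ℝ) ≤ n := by exact_mod_cast hn
    linarith
  have hn0 : (n : ℝ) ≠ 0 := by
    have : (3 : ℝ) ≤ n := by exact_mod_cast hn
    linarith
  have e : ∑ j, v j - v p - v q = ((n : ℝ) - 2) • avg v p q := by
    rw [avg, smul_smul, mul_inv_cancel₀ hn2, one_smul]
  have e' : ∑ j, v j - v p + (avg v p q + x) - v q + (avg v p q + y) =
      (n : ℝ) • avg v p q + (x + y) := by
    have : ∑ j, v j - v p + (avg v p q + x) - v q + (avg v p q + y) =
      (∑ j, v j - v p - v q) + ((2 : ℝ) • avg v p q + (x + y)) := by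
      rw [two_smul]; ring
    rw [this, e, ← add_assoc, ← add_smul]
    congr 2
    ring
  rw [e', smul_add, smul_smul, inv_mul_cancel₀ hn0, one_smul]

theorem reach_first {n : ℕ} (hn : 3 ≤ n) (v : Fin n → ℂ) {p q : Fin n} (h : p ≠ q) (x y : ℂ)
    (t : ℝ) : Reach (cfg v p q (avg v p q) x y)
      (cfg v p q (avg v p q) (t • x + ((1 - t) / ((n : ℝ) - 1)) • y) y) := by
  have hn1 : ((n : ℝ) - 1) ≠ 0 := by
    have : (3 : ℝ) ≤ n := by exact_mod_cast hn
    linarith
  have hn0 : (n : ℝ) ≠ 0 := by
    have : (3 : ℝ) ≤ n := by exact_mod_cast hn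
    linarith
  have := reach_homothety (cfg v p q (avg v p q) x y) p ((n * t - 1) / (n - 1))
  convert this using 1
  rw [centroid_cfg hn v h]
  have h1 : cfg v p q (avg v p q) x y p = avg v p q + x := by
    rw [cfg, update_of_ne h, update_self]
  rw [h1]
  have h2 : avg v p q + (n : ℝ)⁻¹ • (x + y) + (((n : ℝ) * t - 1) / (n - 1)) •
      (avg v p q + x - (avg v p q + (n : ℝ)⁻¹ • (x + y))) =
      avg v p q + (t • x + ((1 - t) / ((n : ℝ) - 1)) • y) := by
    have : avg v p q + x - (avg v p q + (n : ℝ)⁻¹ • (x + y)) = x - (n : ℝ)⁻¹ • (x + y) := by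
      ring
    rw [this]
    match_scalars <;> field_simp <;> ring
  rw [h2, cfg, cfg, update_comm h.symm, update_idem, update_comm h]

theorem reach_second {n : ℕ} (hn : 3 ≤ n) (v : Fin n → ℂ) {p q : Fin n} (h : p ≠ q) (x y : ℂ)
    (t : ℝ) : Reach (cfg v p q (avg v p q) x y)
      (cfg v p q (avg v p q) x (t • y + ((1 - t) / ((n : ℝ) - 1)) • x)) := by
  rw [cfg_comm v h, cfg_comm v h, avg_comm]
  exact reach_first hn v h.symm y x t

/-! ### Transvections -/

theorem reach_transvection_aux {n : ℕ} (hn : 3 ≤ n) (v : Fin n → ℂ) {p q : Fin n} (h : p ≠ q)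
    (x y : ℂ) (k s : ℝ) (hk : k = (n : ℝ) - 1) (hs : s ≠ 0) :
    Reach (cfg v p q (avg v p q) x y) (cfg v p q (avg v p q)
      (x + (-(1 - s) * ((4 * k ^ 2 + 1) * (k ^ 2 - 1)) / (4 * k ^ 5)) • y) y) := by
  have hk2 : (2 : ℝ) ≤ k := by
    have : (3 : ℝ) ≤ n := by exact_mod_cast hn
    linarith
  have hk0 : k ≠ 0 := by linarith
  have hA : (2 * k ^ 2 + 1) ≠ 0 := by positivity
  have hB : (3 * k ^ 2 + 1) ≠ 0 := by positivity
  have first := fun x y t => reach_first hn v h x y t
  have second := fun x y t => reach_second hn v h x y t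
  rw [← hk] at first second
  have r1 := first x y (1 / s)
  have r2 := second ((1 / s) • x + ((1 - 1 / s) / k) • y) y ((3 * k ^ 2 + 1) / (2 * k ^ 2 + 1))
  set x1 := (1 / s) • x + ((1 - 1 / s) / k) • y with hx1
  set y2 := ((3 * k ^ 2 + 1) / (2 * k ^ 2 + 1)) • y +
    ((1 - (3 * k ^ 2 + 1) / (2 * k ^ 2 + 1)) / k) • x1 with hy2
  have r3 := first x1 y2 (1 / 2)
  set x3 := ((1 / 2 : ℝ)) • x1 + ((1 - 1 / 2) / k) • y2 with hx3
  have r4 := second x3 y2 (1 / 2)
  set y4 := ((1 / 2 : ℝ)) • y2 + ((1 - 1 / 2) / k) • x3 with hy4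
  have r5 := first x3 y4 s
  set x5 := s • x3 + ((1 - s) / k) • y4 with hx5
  have r6 := second x5 y4 2
  set y6 := (2 : ℝ) • y4 + ((1 - 2) / k) • x5 with hy6
  have r7 := first x5 y6 2
  set x7 := (2 : ℝ) • x5 + ((1 - 2) / k) • y6 with hx7
  have r8 := second x7 y6 ((2 * k ^ 2 + 1) / (3 * k ^ 2 + 1))
  set y8 := ((2 * k ^ 2 + 1) / (3 * k ^ 2 + 1)) • y6 +
    ((1 - (2 * k ^ 2 + 1) / (3 * k ^ 2 + 1)) / k) • x7 with hy8
  have e7 : x7 = x + (-(1 - s) * ((4 * k ^ 2 + 1) * (k ^ 2 - 1)) / (4 * k ^ 5)) • y := by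
    rw [hx7, hy6, hx5, hy4, hx3, hy2, hx1]
    match_scalars <;> field_simp <;> ring
  have e8 : y8 = y := by
    rw [hy8, hx7, hy6, hx5, hy4, hx3, hy2, hx1]
    match_scalars <;> field_simp <;> ring
  rw [e8, e7] at r8
  rw [e7] at r7
  exact (((((((r1.trans r2).trans r3).trans r4).trans r5).trans r6).trans r7).trans r8)

/-- Transvections are reachable. -/
theorem reach_transvection {n : ℕ} (hn : 3 ≤ n) (v : Fin n → ℂ) {p q : Fin n} (h : p ≠ q)
    (x y : ℂ) (r : ℝ) :
    Reach (cfg v p q (avg v p q) x y) (cfg v p q (avg v p q) (x + r • y) y) := by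
  have hk2 : (2 : ℝ) ≤ (n : ℝ) - 1 := by
    have : (3 : ℝ) ≤ n := by exact_mod_cast hn
    linarith
  set k : ℝ := (n : ℝ) - 1 with hk
  have hk0 : k ≠ 0 := by linarith
  have hK1 : 4 * k ^ 2 + 1 ≠ 0 := by positivity
  have hK2 : k ^ 2 - 1 ≠ 0 := by nlinarith
  -- one step with the parameter `r`, provided it is not exceptional
  have one : ∀ (x : ℂ) (r : ℝ), 1 + r * (4 * k ^ 5) / ((4 * k ^ 2 + 1) * (k ^ 2 - 1)) ≠ 0 →
      Reach (cfg v p q (avg v p q) x y) (cfg v p q (avg v p q) (x + r • y) y) := by
    intro x r hr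
    have := reach_transvection_aux hn v h x y k _ hk hr
    convert this using 5
    field_simp
    ring
  by_cases hr : 1 + r * (4 * k ^ 5) / ((4 * k ^ 2 + 1) * (k ^ 2 - 1)) ≠ 0
  · exact one x r hr
  · have hr2 : 1 + (r / 2) * (4 * k ^ 5) / ((4 * k ^ 2 + 1) * (k ^ 2 - 1)) ≠ 0 := by
      intro h2
      have h1 : 1 + r * (4 * k ^ 5) / ((4 * k ^ 2 + 1) * (k ^ 2 - 1)) = 0 := not_not.1 hr
      have h3 : (r / 2) * (4 * k ^ 5) / ((4 * k ^ 2 + 1) * (k ^ 2 - 1)) =
        (r * (4 * k ^ 5) / ((4 * k ^ 2 + 1) * (k ^ 2 - 1))) / 2 := by ring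
      rw [h3] at h2
      linarith
    have s1 := one x (r / 2) hr2
    have s2 := one (x + (r / 2) • y) (r / 2) hr2
    have e : x + (r / 2) • y + (r / 2) • y = x + r • y := by
      rw [add_assoc, ← add_smul]
      congr 2
      ring
    rw [e] at s2
    exact s1.trans s2

/-! ### A vertex moves freely when the other vertices are not collinear -/

/-- The average of the vertices other than `p`. -/
noncomputable def others {n : ℕ} (v : Fin n → ℂ) (p : Fin n) : ℂ :=
  ((n : ℝ) - 1)⁻¹ • (∑ j, v j - v p)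

theorem others_update {n : ℕ} (v : Fin n → ℂ) (p : Fin n) (y : ℂ) :
    others (update v p y) p = others v p := by
  unfold others
  rw [sum_update, update_self]
  congr 1
  ring

theorem reach_direction {n : ℕ} (hn : 3 ≤ n) (v : Fin n → ℂ) {p q : Fin n} (h : q ≠ p)
    (y : ℂ) (r : ℝ) :
    Reach (update v p y) (update v p (y + r • (v q - others v p))) := by
  have hn1 : ((n : ℝ) - 1) ≠ 0 := by
    have : (3 : ℝ) ≤ n := by exact_mod_cast hn
    linarith
  have hn2 : ((n : ℝ) - 2) ≠ 0 := by
    have : (3 : ℝ) ≤ n := by exact_mod_cast hn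
    linarith
  set w := update v p y with hw
  have hwp : w p = y := update_self _ _ _
  have hwq : w q = v q := update_of_ne h _ _
  have key := reach_transvection hn w h.symm (y - avg w p q) (v q - avg w p q)
    (r * (((n : ℝ) - 2) / ((n : ℝ) - 1)))
  have e1 : cfg w p q (avg w p q) (y - avg w p q) (v q - avg w p q) = w := by
    unfold cfg
    rw [add_sub_cancel, add_sub_cancel, ← hwp, update_eq_self, ← hwq, update_eq_self]
  have e2 : cfg w p q (avg w p q) (y - avg w p q + (r * (((n : ℝ) - 2) / ((n : ℝ) - 1))) •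
      (v q - avg w p q)) (v q - avg w p q) = update v p (y + r • (v q - others v p)) := by
    unfold cfg
    rw [add_sub_cancel, update_comm h.symm, ← hwq, update_eq_self, hw, update_idem, ← hw, hwq]
    congr 1
    have h3 : avg w p q + (y - avg w p q + (r * (((n : ℝ) - 2) / ((n : ℝ) - 1))) •
        (v q - avg w p q)) = y + (r * (((n : ℝ) - 2) / ((n : ℝ) - 1))) • (v q - avg w p q) := by
      ring
    rw [h3]
    congr 1
    have h4 : avg w p q = ((n : ℝ) - 2)⁻¹ • (∑ j, v j - v p - v q) := by
      unfold avg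
      rw [hwp, hwq, hw, sum_update]
      congr 1
      ring
    rw [h4, others]
    match_scalars <;> field_simp <;> ring
  rw [e1, e2] at key
  exact key

theorem finrank_le_one_of_ne_top {W : Submodule ℝ ℂ} (h : W ≠ ⊤) : Module.finrank ℝ W ≤ 1 := by
  have h1 := Submodule.finrank_lt h
  rw [Complex.finrank_real_complex] at h1
  omega

/-- If the vertices other than `p` are not collinear, then `p` can be moved anywhere. -/
theorem reach_anywhere {n : ℕ} (hn : 3 ≤ n) (v : Fin n → ℂ) (p : Fin n)
    (hv : ¬ Collinear ℝ (v '' {q | q ≠ p})) (y : ℂ) : Reach v (update v p y) := by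
  -- the directions in which `p` moves freely
  have hspan : Submodule.span ℝ ((fun q => v q - others v p) '' {q | q ≠ p}) = ⊤ := by
    by_contra hne
    apply hv
    have h1 := finrank_le_one_of_ne_top hne
    have h2 : vectorSpan ℝ (v '' {q | q ≠ p}) ≤
        Submodule.span ℝ ((fun q => v q - others v p) '' {q | q ≠ p}) := by
      rw [vectorSpan_def, Submodule.span_le]
      rintro _ ⟨_, ⟨a, ha, rfl⟩, _, ⟨b, hb, rfl⟩, rfl⟩
      have : v a -ᵥ v b = (v a - others v p) - (v b - others v p) := by
        rw [vsub_eq_sub]; ring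
      show v a -ᵥ v b ∈ _
      rw [this]
      exact Submodule.sub_mem _ (Submodule.subset_span ⟨a, ha, rfl⟩)
        (Submodule.subset_span ⟨b, hb, rfl⟩)
    rw [collinear_iff_finrank_le_one]
    exact (Submodule.finrank_mono h2).trans h1
  have hall : ∀ z ∈ Submodule.span ℝ ((fun q => v q - others v p) '' {q | q ≠ p}),
      ∀ (c : ℝ) (y : ℂ), Reach (update v p y) (update v p (y + c • z)) := by
    intro z hz
    induction hz using Submodule.span_induction with
    | mem x hx =>
      obtain ⟨q, hq, rfl⟩ := hx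
      intro c y
      exact reach_direction hn v hq y c
    | zero =>
      intro c y
      rw [smul_zero, add_zero]
      exact Relation.ReflTransGen.refl
    | add a b _ _ iha ihb =>
      intro c y
      rw [smul_add, ← add_assoc]
      exact (iha c y).trans (ihb c _)
    | smul a z _ ih =>
      intro c y
      rw [smul_smul]
      exact ih (c * a) y
  have h3 := hall (y - v p) (by rw [hspan]; trivial) 1 (v p)
  rwa [update_eq_self, one_smul, add_sub_cancel] at h3

/-! ### Collinearity -/

theorem not_collinear_of {p q z : ℂ} (hpq : p ≠ q) (h : ∀ r : ℝ, z - p ≠ r • (q - p)) :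
    ¬ Collinear ℝ {p, q, z} := by
  intro hc
  have h1 : z ∈ affineSpan ℝ {p, q} :=
    hc.mem_affineSpan_of_mem_of_ne (by simp) (by simp) (by simp) hpq
  obtain ⟨r, hr⟩ := mem_affineSpan_pair_iff_exists_lineMap_eq.1 h1
  refine h r ?_
  rw [← hr, AffineMap.lineMap_apply, vsub_eq_sub, vadd_eq_add, add_sub_cancel_right]

theorem exists_triple {n : ℕ} {v : Fin n → ℂ} (h : ¬ Collinear ℝ (Set.range v)) :
    ∃ a b c, ¬ Collinear ℝ {v a, v b, v c} := by
  by_contra hall
  push Not at hall
  apply h
  by_cases hne : ∃ a b, v a ≠ v b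
  · obtain ⟨a, b, hab⟩ := hne
    have h1 : Set.range v ⊆ (affineSpan ℝ {v a, v b} : Set ℂ) := by
      rintro _ ⟨c, rfl⟩
      exact (hall a b c).mem_affineSpan_of_mem_of_ne (by simp) (by simp) (by simp) hab
    have h2 : Collinear ℝ (affineSpan ℝ {v a, v b} : Set ℂ) := by
      have := collinear_pair ℝ (v a) (v b)
      rw [collinear_iff_finrank_le_one] at this ⊢
      rwa [← direction_affineSpan, AffineSubspace.affineSpan_coe, direction_affineSpan]
    exact h2.subset h1
  · push Not at hne
    rcases (Set.range v).eq_empty_or_nonempty with h0 | ⟨_, ⟨a, rfl⟩⟩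
    · rw [h0]; exact collinear_empty ℝ ℂ
    · have : Set.range v = {v a} := by
        ext x
        simp only [Set.mem_range, Set.mem_singleton_iff]
        constructor
        · rintro ⟨b, rfl⟩; exact hne b a
        · rintro rfl; exact ⟨a, rfl⟩
      rw [this]
      exact collinear_singleton ℝ _

/-- The vertices of a simple polygon are not collinear. -/
theorem IsSimplePolygon.not_collinear {n : ℕ} [NeZero n] (hn : 3 ≤ n) {v : Fin n → ℂ}
    (hv : IsSimplePolygon v) : ¬ Collinear ℝ (Set.range v) := by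
  intro hc
  obtain ⟨p₀, d, hd⟩ := (collinear_iff_exists_forall_eq_smul_vadd _).1 hc
  have hd' : ∀ i, ∃ r : ℝ, v i = r • d + p₀ := fun i => by
    obtain ⟨r, hr⟩ := hd (v i) ⟨i, rfl⟩
    exact ⟨r, hr⟩
  choose f hf using hd'
  have hfinj : ∀ i j, f i = f j → i = j := by
    intro i j h
    apply hv.1
    rw [hf i, hf j, h]
  obtain ⟨i, hi⟩ := Finite.exists_max f
  have seg : ∀ a b c : Fin n, f a ≤ f b → f b ≤ f c → v b ∈ segment ℝ (v c) (v a) := by
    intro a b c hab hbc
    rcases eq_or_lt_of_le (hab.trans hbc) with h | h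
    · have e1 : f b = f c := le_antisymm hbc (h ▸ hab)
      rw [hf b, e1, ← hf c]
      exact left_mem_segment ℝ _ _
    · rw [segment_symm, segment_eq_image_lineMap]
      refine ⟨(f b - f a) / (f c - f a), ⟨div_nonneg (by linarith) (by linarith),
        (div_le_one (by linarith)).2 (by linarith)⟩, ?_⟩
      rw [AffineMap.lineMap_apply, hf a, hf b, hf c, vsub_eq_sub, vadd_eq_add]
      have e2 : f c • d + p₀ - (f a • d + p₀) = (f c - f a) • d := by
        rw [sub_smul]; ring
      rw [e2, smul_smul, div_mul_cancel₀ _ (by linarith), sub_smul]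
      ring
  set j := i - 1 with hj
  have hji : j + 1 = i := by rw [hj, sub_add_cancel]
  have h2 : (1 + 1 : Fin n) ≠ 0 := by
    obtain ⟨m, rfl⟩ := Nat.exists_eq_add_of_le hn
    rw [Ne, Fin.ext_iff, Fin.val_add, Fin.val_one']
    simp only [Fin.val_zero]
    rw [Nat.mod_eq_of_lt (by omega : 1 < 3 + m), Nat.mod_eq_of_lt (by omega)]
    omega
  have h1 : (1 : Fin n) ≠ 0 := by
    intro h
    rw [h] at h2
    simp at h2
  have hjl : j ≠ i + 1 := by
    intro h
    rw [h, add_assoc] at hji
    exact h2 (by simpa using hji)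
  have hjne : j ≠ i := by
    intro h
    rw [h] at hji
    exact h1 (by simpa using hji)
  have hlne : i + 1 ≠ i := fun h => h1 (by simpa using h)
  rcases le_total (f (i + 1)) (f j) with h | h
  · -- the vertex `v j` lies on the edge from `v i` to `v (i + 1)`
    rcases hv.2 i j hjne.symm (v j) (seg _ _ _ h (hi j)) (left_mem_segment ℝ _ _) with h3 | h3
    · exact hjl h3.1
    · rw [hji] at h3
      exact hjne (hv.1 h3.2)
  · rcases hv.2 i j hjne.symm (v (i + 1)) (right_mem_segment ℝ _ _) (by
      rw [hji, segment_symm]; exact seg _ _ _ h (hi _)) with h3 | h3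
    · exact hjl h3.1
    · rw [hji] at h3
      exact hlne (hv.1 h3.2)

/-! ### The regular polygon -/

/-- The regular polygon with centre `c` and first vertex `c + z`. -/
noncomputable def reg (n : ℕ) (c z : ℂ) (j : Fin n) : ℂ :=
  c + z * Complex.exp (2 * Real.pi * Complex.I / n) ^ (j : ℕ)

theorem isRegular_reg {n : ℕ} (c : ℂ) {z : ℂ} (hz : z ≠ 0) : IsRegular (reg n c z) := by
  refine ⟨c, ‖z‖, Complex.arg z, 1, norm_pos_iff.2 hz, Or.inl rfl, fun j => ?_⟩
  unfold reg
  congr 1
  have h1 : ((Complex.arg z + 1 * (2 * Real.pi * (j : ℕ) / n) : ℝ) : ℂ) * Complex.I =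
      Complex.arg z * Complex.I + (j : ℕ) * (2 * Real.pi * Complex.I / n) := by
    push_cast
    ring
  rw [h1, Complex.exp_add, Complex.exp_nat_mul, ← mul_assoc, Complex.norm_mul_exp_arg_mul_I]

theorem reg_injective {n : ℕ} (hn : 3 ≤ n) (c : ℂ) {z : ℂ} (hz : z ≠ 0) :
    Injective (reg n c z) := by
  intro a b h
  unfold reg at h
  have h1 := mul_left_cancel₀ hz (add_left_cancel h)
  have h2 := (Complex.isPrimitiveRoot_exp n (by omega)).pow_inj a.2 b.2 h1
  exact Fin.ext h2

theorem reg_not_collinear {n : ℕ} (hn : 3 ≤ n) (c : ℂ) {z : ℂ} (hz : z ≠ 0) {i j l : Fin n}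
    (hij : i ≠ j) (hil : i ≠ l) (hjl : j ≠ l) :
    ¬ Collinear ℝ {reg n c z i, reg n c z j, reg n c z l} := by
  rw [← affineIndependent_iff_not_collinear_set]
  have hs : EuclideanGeometry.Cospherical ({reg n c z i, reg n c z j, reg n c z l} : Set ℂ) := by
    refine ⟨c, ‖z‖, ?_⟩
    have : ∀ a, dist (reg n c z a) c = ‖z‖ := by
      intro a
      rw [reg, dist_eq_norm, add_sub_cancel_left, norm_mul, norm_pow]
      have h1 : ‖Complex.exp (2 * Real.pi * Complex.I / n)‖ = 1 := by
        have : (2 * Real.pi * Complex.I / n : ℂ) = ((2 * Real.pi / n : ℝ) : ℂ) * Complex.I := by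
          push_cast; ring
        rw [this, Complex.norm_exp_ofReal_mul_I]
      rw [h1, one_pow, mul_one]
    intro p hp
    simp only [Set.mem_insert_iff, Set.mem_singleton_iff] at hp
    rcases hp with rfl | rfl | rfl <;> exact this _
  exact hs.affineIndependent_of_ne (fun h => hij (reg_injective hn c hz h))
    (fun h => hil (reg_injective hn c hz h)) (fun h => hjl (reg_injective hn c hz h))

/-! ### At least four vertices -/

theorem reach_off {n : ℕ} (hn : 3 ≤ n) (v w : Fin n → ℂ) {a b c : Fin n}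
    (h : ¬ Collinear ℝ {v a, v b, v c}) (s : Finset (Fin n)) (ha : a ∉ s) (hb : b ∉ s)
    (hc : c ∉ s) : Reach v (fun j => if j ∈ s then w j else v j) := by
  induction s using Finset.induction_on with
  | empty =>
    simp only [Finset.notMem_empty, if_false]
    exact Relation.ReflTransGen.refl
  | insert p s hp ih =>
    simp only [Finset.mem_insert, not_or] at ha hb hc
    have ih' := ih ha.2 hb.2 hc.2
    refine ih'.trans ?_
    set u : Fin n → ℂ := fun j => if j ∈ s then w j else v j with hu
    have hnc : ¬ Collinear ℝ (u '' {q | q ≠ p}) := by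
      intro hcol
      apply h
      refine hcol.subset ?_
      intro x hx
      simp only [Set.mem_insert_iff, Set.mem_singleton_iff] at hx
      rcases hx with rfl | rfl | rfl
      · exact ⟨a, ha.1, by simp [hu, ha.2]⟩
      · exact ⟨b, hb.1, by simp [hu, hb.2]⟩
      · exact ⟨c, hc.1, by simp [hu, hc.2]⟩
    have := reach_anywhere hn u p hnc (w p)
    have e : update u p (w p) = fun j => if j ∈ insert p s then w j else v j := by
      funext j
      by_cases hj : j = p
      · subst hj; simp
      · rw [update_of_ne hj]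
        simp [hu, hj]
    rwa [e] at this

theorem exists_generic {u g : ℂ} (hu : u ≠ 0) (hg : g ≠ 0) :
    ∃ y : ℂ, (∀ r : ℝ, y ≠ r • u) ∧ ∀ r : ℝ, y ≠ r • g := by
  have hI : ∀ a r : ℝ, ((a : ℂ) + Complex.I) * u ≠ r • u := by
    intro a r h
    rw [Complex.real_smul] at h
    have h1 := mul_right_cancel₀ hu h
    have := congrArg Complex.im h1
    simp at this
  by_cases h : ∀ r : ℝ, (((0 : ℝ) : ℂ) + Complex.I) * u ≠ r • g
  · exact ⟨_, hI 0, h⟩
  · push Not at h
    obtain ⟨r, hr⟩ := h
    refine ⟨_, hI 1, ?_⟩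
    intro t ht
    have h1 : u = (t - r) • g := by
      rw [sub_smul, ← ht, ← hr]
      push_cast
      ring
    rw [h1, Complex.real_smul] at hr
    rw [Complex.real_smul] at hr
    have h2 : (((0 : ℝ) : ℂ) + Complex.I) * ((t - r : ℝ) : ℂ) = (r : ℂ) := by
      apply mul_right_cancel₀ hg
      rw [mul_assoc]
      exact hr
    have h3 := congrArg Complex.im h2
    have h4 : t - r = 0 := by
      simpa using h3
    rw [h4, zero_smul] at h1
    exact hu h1

theorem reach_regular_four {n : ℕ} (hn : 4 ≤ n) (v : Fin n → ℂ)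
    (hv : ¬ Collinear ℝ (Set.range v)) : ∃ w, IsRegular w ∧ Reach v w := by
  have hn3 : 3 ≤ n := by omega
  obtain ⟨a, b, c, habc⟩ := exists_triple hv
  have vab : v a ≠ v b := ne₁₂_of_not_collinear habc
  have vac : v a ≠ v c := ne₁₃_of_not_collinear habc
  have vbc : v b ≠ v c := ne₂₃_of_not_collinear habc
  have hab : a ≠ b := fun h => vab (by rw [h])
  have hac : a ≠ c := fun h => vac (by rw [h])
  have hbc : b ≠ c := fun h => vbc (by rw [h])
  obtain ⟨d, hd⟩ : ∃ d, d ∉ ({a, b, c} : Finset (Fin n)) := by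
    by_contra hall
    push Not at hall
    have h1 : (Finset.univ : Finset (Fin n)) ⊆ {a, b, c} := fun x _ => hall x
    have h2 := Finset.card_le_card h1
    have h3 : ({a, b, c} : Finset (Fin n)).card ≤ 3 := Finset.card_le_three
    rw [Finset.card_univ, Fintype.card_fin] at h2
    omega
  simp only [Finset.mem_insert, Finset.mem_singleton, not_or] at hd
  obtain ⟨hda, hdb, hdc⟩ := hd
  have hρ : reg n 0 1 a - reg n 0 1 d ≠ 0 := by
    rw [sub_ne_zero]
    exact fun h => hda (reg_injective hn3 0 one_ne_zero h).symm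
  obtain ⟨y, hy1, hy2⟩ := exists_generic (sub_ne_zero.2 vbc) hρ
  -- the centre of the target polygon
  set T : ℂ := y + v c - reg n 0 1 d with hT
  have hreg : ∀ j, reg n T 1 j = T + reg n 0 1 j := by
    intro j; simp [reg]
  set w := reg n T 1 with hw
  have hwd : w d = y + v c := by rw [hreg, hT]; ring
  refine ⟨w, isRegular_reg T one_ne_zero, ?_⟩
  have c1 : ¬ Collinear ℝ {v c, v b, w d} := by
    refine not_collinear_of vbc.symm ?_
    intro r
    rw [hwd, add_sub_cancel_right]
    exact hy1 r
  have c2 : ¬ Collinear ℝ {w d, w a, v c} := by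
    refine not_collinear_of ?_ ?_
    · exact fun h => hda (reg_injective hn3 T one_ne_zero h)
    · intro r h
      rw [hwd] at h
      have h1 : w a - (y + v c) = reg n 0 1 a - reg n 0 1 d := by
        rw [hreg, hT]; ring
      rw [h1] at h
      apply hy2 (-r)
      rw [neg_smul, ← h]
      ring
  have c3 : ¬ Collinear ℝ {w a, w b, w d} :=
    reg_not_collinear hn3 T one_ne_zero hab (Ne.symm hda) (Ne.symm hdb)
  have s1 := reach_off hn3 v w habc (Finset.univ \ {a, b, c}) (by simp) (by simp) (by simp)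
  set v1 : Fin n → ℂ := fun j => if j ∈ Finset.univ \ {a, b, c} then w j else v j with hv1
  have v1b : v1 b = v b := by simp [hv1]
  have v1c : v1 c = v c := by simp [hv1]
  have v1d : v1 d = w d := by simp [hv1, hda, hdb, hdc]
  have s2 := reach_anywhere hn3 v1 a (fun hcol => c1 (hcol.subset (by
    intro x hx
    simp only [Set.mem_insert_iff, Set.mem_singleton_iff] at hx
    rcases hx with rfl | rfl | rfl
    · exact ⟨c, hac.symm, v1c⟩
    · exact ⟨b, hab.symm, v1b⟩
    · exact ⟨d, hda, v1d⟩))) (w a)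
  set v2 := update v1 a (w a) with hv2
  have v2a : v2 a = w a := update_self _ _ _
  have v2c : v2 c = v c := by rw [hv2, update_of_ne hac.symm, v1c]
  have v2d : v2 d = w d := by rw [hv2, update_of_ne hda, v1d]
  have s3 := reach_anywhere hn3 v2 b (fun hcol => c2 (hcol.subset (by
    intro x hx
    simp only [Set.mem_insert_iff, Set.mem_singleton_iff] at hx
    rcases hx with rfl | rfl | rfl
    · exact ⟨d, hdb, v2d⟩
    · exact ⟨a, hab, v2a⟩
    · exact ⟨c, hbc.symm, v2c⟩))) (w b)
  set v3 := update v2 b (w b) with hv3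
  have v3a : v3 a = w a := by rw [hv3, update_of_ne hab, v2a]
  have v3b : v3 b = w b := update_self _ _ _
  have v3d : v3 d = w d := by rw [hv3, update_of_ne hdb, v2d]
  have s4 := reach_anywhere hn3 v3 c (fun hcol => c3 (hcol.subset (by
    intro x hx
    simp only [Set.mem_insert_iff, Set.mem_singleton_iff] at hx
    rcases hx with rfl | rfl | rfl
    · exact ⟨a, hac, v3a⟩
    · exact ⟨b, hbc, v3b⟩
    · exact ⟨d, hdc, v3d⟩))) (w c)
  have hfinal : update v3 c (w c) = w := by
    funext j
    by_cases hjc : j = c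
    · rw [hjc, update_self]
    rw [update_of_ne hjc]
    by_cases hjb : j = b
    · rw [hjb, v3b]
    rw [hv3, update_of_ne hjb]
    by_cases hja : j = a
    · rw [hja, v2a]
    rw [hv2, update_of_ne hja]
    simp [hv1, hja, hjb, hjc]
  rw [hfinal] at s4
  exact ((s1.trans s2).trans s3).trans s4

/-! ### Three vertices -/

theorem exp_third : Complex.exp (2 * Real.pi * Complex.I / (3 : ℕ)) =
    -(1 / 2) + (Real.sqrt 3 / 2 : ℝ) * Complex.I := by
  have h1 : (2 * Real.pi * Complex.I / (3 : ℕ) : ℂ) = ((2 * Real.pi / 3 : ℝ) : ℂ) * Complex.I := by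
    push_cast; ring
  have h2 : (2 * Real.pi / 3 : ℝ) = Real.pi - Real.pi / 3 := by ring
  rw [h1, Complex.exp_mul_I, ← Complex.ofReal_cos, ← Complex.ofReal_sin, h2, Real.cos_pi_sub,
    Real.sin_pi_sub, Real.cos_pi_div_three, Real.sin_pi_div_three]
  push_cast
  ring

theorem reach_regular_three (v : Fin 3 → ℂ) (hv : ¬ Collinear ℝ (Set.range v)) :
    ∃ w, IsRegular w ∧ Reach v w := by
  set E := Complex.exp (2 * Real.pi * Complex.I / (3 : ℕ)) with hE
  have hE1 := exp_third
  rw [← hE] at hE1
  have h3 : (Real.sqrt 3 : ℝ) * Real.sqrt 3 = 3 := Real.mul_self_sqrt (by norm_num)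
  have h3c : ((Real.sqrt 3 : ℝ) : ℂ) * ((Real.sqrt 3 : ℝ) : ℂ) = 3 := by
    exact_mod_cast h3
  have h30 : (Real.sqrt 3 : ℝ) ≠ 0 := by positivity
  have h30c : ((Real.sqrt 3 : ℝ) : ℂ) ≠ 0 := by exact_mod_cast h30
  have hE2 : E ^ 2 = -(1 / 2) - (Real.sqrt 3 / 2 : ℝ) * Complex.I := by
    rw [hE1]
    push_cast
    linear_combination (Complex.I ^ 2 / 4) * h3c + (3 / 4) * Complex.I_sq
  have hdiff : E - E ^ 2 = Real.sqrt 3 * Complex.I := by
    rw [hE2, hE1]; push_cast; ring
  have hdiff0 : E - E ^ 2 ≠ 0 := by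
    rw [hdiff]
    exact mul_ne_zero h30c Complex.I_ne_zero
  have hv12 : v 1 ≠ v 2 := by
    intro h
    apply hv
    have : Set.range v ⊆ {v 0, v 1} := by
      rintro _ ⟨i, rfl⟩
      fin_cases i
      · left; rfl
      · right; rfl
      · right; exact h.symm
    exact (collinear_pair ℝ _ _).subset this
  set z := (v 1 - v 2) / (E - E ^ 2) with hz
  have hz0 : z ≠ 0 := div_ne_zero (sub_ne_zero.2 hv12) hdiff0
  have hzE : z * (E - E ^ 2) = v 1 - v 2 := div_mul_cancel₀ _ hdiff0
  set c := v 1 - z * E with hc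
  have hv1 : v 1 = c + z * E := by rw [hc]; ring
  have hv2 : v 2 = c + z * E ^ 2 := by rw [hc]; linear_combination hzE
  -- the coordinates of `v 0`
  set ζ := (v 0 - (c - z / 2)) / z with hζ
  have hζz : ζ * z = v 0 - (c - z / 2) := div_mul_cancel₀ _ hz0
  have hα : ζ.re ≠ 0 := by
    intro h
    apply hv
    have h0 : v 0 = AffineMap.lineMap (v 1) (v 2) (1 / 2 - ζ.im / Real.sqrt 3 : ℝ) := by
      have hζ' : ζ = ζ.im * Complex.I := by
        apply Complex.ext <;> simp [h]
      rw [AffineMap.lineMap_apply, vsub_eq_sub, vadd_eq_add, Complex.real_smul]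
      have e1 : v 2 - v 1 = -(z * (Real.sqrt 3 * Complex.I)) := by
        rw [← hdiff]; linear_combination hzE
      have e2 : v 0 = ζ.im * Complex.I * z + (c - z / 2) := by
        rw [← hζ', hζz]; ring
      rw [e2, e1, hv1, hE1]
      push_cast
      field_simp
      ring
    have : Set.range v ⊆ insert (v 0) {v 1, v 2} := by
      rintro _ ⟨i, rfl⟩
      fin_cases i <;> simp
    refine (collinear_insert_of_mem_affineSpan_pair ?_).subset this
    rw [h0]
    exact AffineMap.lineMap_mem_affineSpan_pair _ _ _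
  -- slide `v 0` parallel to the opposite side
  set v1 := update v 0 (c - z / 2 + ζ.re * z) with hv1'
  have s1 : Reach v v1 := by
    have h01 : (1 : Fin 3) ≠ 0 := by decide
    have key := reach_direction (le_refl 3) v h01 (v 0) (-(2 * ζ.im / Real.sqrt 3))
    rw [update_eq_self] at key
    have e1 : others v 0 = (v 1 + v 2) / 2 := by
      unfold others
      rw [Fin.sum_univ_three, Complex.real_smul]
      push_cast
      norm_num
      ring
    have e2 : v 1 - (v 1 + v 2) / 2 = z * (Real.sqrt 3 * Complex.I) / 2 := by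
      rw [← hdiff]; linear_combination -hzE / 2
    have e3 : v 0 = (ζ.re + ζ.im * Complex.I) * z + (c - z / 2) := by
      rw [Complex.re_add_im, hζz]; ring
    have e4 : v 0 + (-(2 * ζ.im / Real.sqrt 3)) • (v 1 - others v 0) = c - z / 2 + ζ.re * z := by
      rw [e1, e2, Complex.real_smul, e3]
      push_cast
      field_simp
      ring
    rw [e4] at key
    exact key
  -- move `v 0` along the axis of symmetry
  have v10 : v1 0 = c - z / 2 + ζ.re * z := update_self _ _ _
  have v11 : v1 1 = c + z * E := by rw [hv1', update_of_ne (by decide), hv1]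
  have v12 : v1 2 = c + z * E ^ 2 := by rw [hv1', update_of_ne (by decide), hv2]
  have hcen : centroid v1 = c - z / 2 + ζ.re / 3 * z := by
    unfold centroid
    rw [Fin.sum_univ_three, v10, v11, v12, hE2, hE1, Complex.real_smul]
    push_cast
    norm_num
    ring
  have s2 := reach_homothety v1 0 ((9 / (2 * ζ.re) - 1) / 2)
  refine ⟨_, ?_, s1.trans s2⟩
  have hfin : update v1 0 (centroid v1 + ((9 / (2 * ζ.re) - 1) / 2) • (v1 0 - centroid v1)) =
      reg 3 c z := by
    have hαc : (ζ.re : ℂ) ≠ 0 := by exact_mod_cast hα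
    have e : centroid v1 + ((9 / (2 * ζ.re) - 1) / 2) • (v1 0 - centroid v1) = c + z := by
      rw [hcen, v10, Complex.real_smul]
      push_cast
      field_simp
      ring
    rw [e]
    funext j
    fin_cases j
    · simp [reg]
    · show update v1 0 (c + z) 1 = _
      rw [update_of_ne (by decide), v11]
      simp [reg, hE]
    · show update v1 0 (c + z) 2 = _
      rw [update_of_ne (by decide), v12]
      simp [reg, hE]
  rw [hfin]
  exact isRegular_reg c hz0

/-- Every polygon whose vertices are not collinear can be carried to a regular polygon. -/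
theorem reach_regular {n : ℕ} (hn : 3 ≤ n) (v : Fin n → ℂ)
    (hv : ¬ Collinear ℝ (Set.range v)) : ∃ w, IsRegular w ∧ Reach v w := by
  rcases Nat.lt_or_ge n 4 with h | h
  · obtain rfl : n = 3 := by omega
    exact reach_regular_three v hv
  · exact reach_regular_four h v hv

/-- For every `n ≥ 3`, every simple polygon with `n` vertices can be carried to a regular polygon by
a finite sequence of vertex-centroid moves. -/
theorem result : ∀ (n : ℕ) [NeZero n], 3 ≤ n → ∀ v : Fin n → ℂ, IsSimplePolygon v →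
    ∃ w : Fin n → ℂ, IsRegular w ∧ Reach v w :=
  fun _ _ hn v hv => reach_regular hn v (hv.not_collinear hn)

end Pool.Agent.Results.MP_06c496_co.ReachRegular
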